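import Pool.Agent.Helper99.SC.Logic

/-!
# SL2: the program decides satisfiability
-/

set_option autoImplicit false

namespace Pool.Agent.Helper99.SC.Prog

open Pool.Agent.Helper99.SC

/-! ### validity -/

theorem v_cpl {K k : ℕ} (h : k + 1 < K) : ∀ o ∈ cpl k, o.Valid K := by
  intro o ho
  simp only [cpl, List.mem_cons, List.not_mem_nil, or_false] at ho
  rcases ho with rfl | rfl <;> refine ⟨?_, ?_, ?_, ?_⟩ <;> simp <;> omega

theorem v_cpr {K k : ℕ} (h : k + 1 < K) : ∀ o ∈ cpr k, o.Valid K := by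
  intro o ho
  simp only [cpr, List.mem_cons, List.not_mem_nil, or_false] at ho
  rcases ho with rfl | rfl <;> refine ⟨?_, ?_, ?_, ?_⟩ <;> simp <;> omega

theorem v_nnd {K k : ℕ} (h : k + 3 < K) : ∀ o ∈ nnd k, o.Valid K := by
  intro o ho
  simp only [nnd, List.mem_cons, List.not_mem_nil, or_false] at ho
  rcases ho with rfl | rfl | rfl | rfl | rfl | rfl | rfl | rfl | rfl | rfl | rfl <;>
    refine ⟨?_, ?_, ?_, ?_⟩ <;> simp <;> omega

theorem v_xorm {K k : ℕ} (h : k + 8 < K) : ∀ o ∈ xorm k, o.Valid K := by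
  unfold xorm
  simp only [List.forall_mem_append]
  repeat' first | apply And.intro | exact v_cpl (by omega) | exact v_cpr (by omega) | exact v_nnd (by omega)

theorem v_swp {K k : ℕ} (h : k + 9 < K) : ∀ o ∈ swp k, o.Valid K := by
  unfold swp
  simp only [List.forall_mem_append]
  repeat' first | apply And.intro | exact v_cpl (by omega) | exact v_cpr (by omega) | exact v_xorm (by omega)

theorem v_orp {K k : ℕ} (h : k + 9 < K) : ∀ o ∈ orp k, o.Valid K := by
  unfold orp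
  simp only [List.forall_mem_append]
  repeat' first | apply And.intro | exact v_cpl (by omega) | exact v_cpr (by omega) | exact v_nnd (by omega)

theorem v_orn {K k : ℕ} (h : k + 9 < K) : ∀ o ∈ orn k, o.Valid K := by
  unfold orn
  simp only [List.forall_mem_append]
  repeat' first | apply And.intro | exact v_cpl (by omega) | exact v_cpr (by omega) | exact v_nnd (by omega)

theorem v_ast {K k : ℕ} (h : k + 9 < K) : ∀ o ∈ ast k, o.Valid K := by
  have h3 : ∀ o ∈ ([(3, k + 3)] : List Op), o.Valid K := by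
    intro o ho
    simp only [List.mem_cons, List.not_mem_nil, or_false] at ho
    subst ho
    refine ⟨?_, ?_, ?_, ?_⟩ <;> simp <;> omega
  unfold ast
  simp only [List.forall_mem_append]
  repeat' first | apply And.intro | exact v_cpl (by omega) | exact v_cpr (by omega) | exact v_nnd (by omega) |
    exact h3

theorem v_rst {K k : ℕ} (h : k < K) : ∀ o ∈ rst k, o.Valid K := by
  intro o ho
  simp only [rst, List.mem_cons, List.not_mem_nil, or_false] at ho
  rcases ho with rfl | rfl <;> refine ⟨?_, ?_, ?_, ?_⟩ <;> simp <;> omega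

theorem valid_prog (n : ℕ) (cls : List (List (ℕ × Bool))) : ∀ o ∈ prog n cls, o.Valid (9 * n + 10) := by
  intro o ho
  obtain ⟨c, _, ho⟩ := List.mem_flatMap.1 ho
  simp only [clauseOps, List.mem_append] at ho
  rcases ho with ((ho | ho) | ho) | ho
  · exact v_rst (by omega) o ho
  · obtain ⟨j, hj, ho⟩ := List.mem_flatMap.1 ho
    rw [List.mem_range] at hj
    simp only [litOps, List.mem_append] at ho
    rcases ho with (ho | ho) | ho
    · split_ifs at ho
      · exact v_orp (by omega) o ho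
      · simp at ho
    · split_ifs at ho
      · exact v_orn (by omega) o ho
      · simp at ho
    · exact v_swp (by omega) o ho
  · exact v_ast (by omega) o ho
  · obtain ⟨j, hj, ho⟩ := List.mem_flatMap.1 ho
    rw [List.mem_range] at hj
    exact v_swp (by omega) o ho

/-! ### runs -/

theorem run_append (l l' : List Op) (x y : ℕ → Bool) : Run (l ++ l') x y ↔ ∃ z, Run l x z ∧ Run l' z y := by
  induction l generalizing x with
  | nil => simp [Run]
  | cons o l ih =>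
    simp only [List.cons_append, Run]
    constructor
    · rintro ⟨z, hz, h⟩
      obtain ⟨w, hw, h⟩ := (ih z).1 h
      exact ⟨w, ⟨z, hz, hw⟩, h⟩
    · rintro ⟨w, ⟨z, hz, hw⟩, h⟩
      exact ⟨z, hz, (ih z).2 ⟨w, hw, h⟩⟩

/-- a list of operations acts as a function -/
def Fn (l : List Op) (f : (ℕ → Bool) → ℕ → Bool) : Prop := ∀ x y, Run l x y ↔ y = f x

theorem fn_nil : Fn [] (fun x => x) := fun _ _ => Iff.rfl

theorem Fn.append {l l' : List Op} {f f' : (ℕ → Bool) → ℕ → Bool} (h : Fn l f) (h' : Fn l' f') :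
    Fn (l ++ l') (fun x => f' (f x)) := by
  intro x y
  rw [run_append]
  constructor
  · rintro ⟨z, hz, hy⟩
    rw [h] at hz
    rw [h'] at hy
    rw [hy, hz]
  · rintro rfl
    exact ⟨f x, (h _ _).2 rfl, (h' _ _).2 rfl⟩

/-- the condition added by the variable `j` -/
def lc (c : List (ℕ × Bool)) (j : ℕ) (b : Bool) : Prop := ((j, true) ∈ c ∧ b = true) ∨ ((j, false) ∈ c ∧ b = false)

theorem orp_part (h : M_macro) (c : List (ℕ × Bool)) (j : ℕ) :
    ∃ f, Fn (if (j, true) ∈ c then orp (9 * j) else []) f ∧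
      ∀ x, (f x (9 * j) = true ↔ x (9 * j) = true ∨ ((j, true) ∈ c ∧ x (9 * (j + 1)) = true)) ∧
        ∀ i, i ≠ j → f x (9 * i) = x (9 * i) := by
  obtain ⟨-, -, h3, -⟩ := h
  split_ifs with hc
  · obtain ⟨f, hf, hf'⟩ := h3 (9 * j)
    refine ⟨f, hf, fun x => ⟨?_, ?_⟩⟩
    · rw [(hf' x).1, Bool.or_eq_true, show 9 * j + 9 = 9 * (j + 1) by ring]
      simp [hc]
    · intro i hi
      exact (hf' x).2 _ (by omega)
  · exact ⟨_, fn_nil, fun x => ⟨by simp [hc], fun _ _ => rfl⟩⟩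

theorem orn_part (h : M_macro) (c : List (ℕ × Bool)) (j : ℕ) :
    ∃ f, Fn (if (j, false) ∈ c then orn (9 * j) else []) f ∧
      ∀ x, (f x (9 * j) = true ↔ x (9 * j) = true ∨ ((j, false) ∈ c ∧ x (9 * (j + 1)) = false)) ∧
        ∀ i, i ≠ j → f x (9 * i) = x (9 * i) := by
  obtain ⟨-, -, -, h4, -⟩ := h
  split_ifs with hc
  · obtain ⟨f, hf, hf'⟩ := h4 (9 * j)
    refine ⟨f, hf, fun x => ⟨?_, ?_⟩⟩
    · rw [(hf' x).1, Bool.or_eq_true, show 9 * j + 9 = 9 * (j + 1) by ring]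
      simp [hc]
    · intro i hi
      exact (hf' x).2 _ (by omega)
  · exact ⟨_, fn_nil, fun x => ⟨by simp [hc], fun _ _ => rfl⟩⟩

theorem swp_part (h : M_macro) (j : ℕ) :
    ∃ f, Fn (swp (9 * j)) f ∧ ∀ x, f x (9 * j) = x (9 * (j + 1)) ∧ f x (9 * (j + 1)) = x (9 * j) ∧
      ∀ i, i ≠ j → i ≠ j + 1 → f x (9 * i) = x (9 * i) := by
  obtain ⟨-, h2, -⟩ := h
  obtain ⟨f, hf, hf'⟩ := h2 (9 * j)
  refine ⟨f, hf, fun x => ⟨?_, ?_, ?_⟩⟩
  · rw [(hf' x).1]; rfl
  · rw [show 9 * (j + 1) = 9 * j + 9 by ring, (hf' x).2.1]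
  · intro i hi hi'
    exact (hf' x).2.2 _ (by omega)

theorem lit_part (h : M_macro) (c : List (ℕ × Bool)) (j : ℕ) :
    ∃ f, Fn (litOps c j) f ∧ ∀ x, f x (9 * j) = x (9 * (j + 1)) ∧
      (f x (9 * (j + 1)) = true ↔ x (9 * j) = true ∨ lc c j (x (9 * (j + 1)))) ∧
      ∀ i, i ≠ j → i ≠ j + 1 → f x (9 * i) = x (9 * i) := by
  obtain ⟨f, hf, hf'⟩ := orp_part h c j
  obtain ⟨g, hg, hg'⟩ := orn_part h c j
  obtain ⟨s, hs, hs'⟩ := swp_part h j
  refine ⟨_, (hf.append hg).append hs, fun x => ⟨?_, ?_, ?_⟩⟩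
  · rw [(hs' _).1, (hg' _).2 _ (by omega), (hf' _).2 _ (by omega)]
  · rw [(hs' _).2.1, (hg' _).1, (hf' _).1, (hf' _).2 _ (by omega), or_assoc]
    rfl
  · intro i hi hi'
    rw [(hs' _).2.2 i hi hi', (hg' _).2 _ hi, (hf' _).2 _ hi]

theorem lits_part (h : M_macro) (c : List (ℕ × Bool)) (m : ℕ) :
    ∃ f, Fn ((List.range m).flatMap (litOps c)) f ∧ ∀ x, (∀ i < m, f x (9 * i) = x (9 * (i + 1))) ∧
      (f x (9 * m) = true ↔ x 0 = true ∨ ∃ j < m, lc c j (x (9 * (j + 1)))) ∧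
      ∀ i, m < i → f x (9 * i) = x (9 * i) := by
  induction m with
  | zero =>
    refine ⟨_, fn_nil, fun x => ⟨by simp, ?_, fun _ _ => rfl⟩⟩
    simp
  | succ m ih =>
    obtain ⟨f, hf, hf'⟩ := ih
    obtain ⟨g, hg, hg'⟩ := lit_part h c m
    rw [List.range_succ, List.flatMap_append, List.flatMap_singleton]
    refine ⟨_, hf.append hg, fun x => ⟨?_, ?_, ?_⟩⟩
    · intro i hi
      rcases Nat.lt_succ_iff_lt_or_eq.1 hi with h1 | h1
      · rw [(hg' _).2.2 i (by omega) (by omega), (hf' x).1 i h1]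
      · rw [h1, (hg' _).1, (hf' x).2.2 (m + 1) (by omega)]
    · rw [(hg' _).2.1, (hf' x).2.1, (hf' x).2.2 (m + 1) (by omega), or_assoc]
      apply or_congr Iff.rfl
      constructor
      · rintro (⟨j, hj, hl⟩ | hl)
        · exact ⟨j, by omega, hl⟩
        · exact ⟨m, by omega, hl⟩
      · rintro ⟨j, hj, hl⟩
        rcases Nat.lt_succ_iff_lt_or_eq.1 hj with h1 | h1
        · exact Or.inl ⟨j, h1, hl⟩
        · rw [h1] at hl
          exact Or.inr hl
    · intro i hi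
      rw [(hg' _).2.2 i (by omega) (by omega), (hf' x).2.2 i (by omega)]

theorem back_part (h : M_macro) (n m : ℕ) (hm : m ≤ n) :
    ∃ f, Fn ((List.range m).flatMap fun j => swp (9 * (n - 1 - j))) f ∧
      ∀ x, (∀ i, i < n - m → f x (9 * i) = x (9 * i)) ∧
      (∀ i, n - m < i → i ≤ n → f x (9 * i) = x (9 * (i - 1))) ∧ f x (9 * (n - m)) = x (9 * n) := by
  induction m with
  | zero =>
    refine ⟨_, fn_nil, fun x => ⟨fun _ _ => rfl, ?_, rfl⟩⟩
    intro i h1 h2
    omega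
  | succ m ih =>
    obtain ⟨f, hf, hf'⟩ := ih (by omega)
    obtain ⟨g, hg, hg'⟩ := swp_part h (n - 1 - m)
    rw [List.range_succ, List.flatMap_append, List.flatMap_singleton]
    have e1 : n - 1 - m + 1 = n - m := by omega
    have e2 : n - (m + 1) = n - 1 - m := by omega
    refine ⟨_, hf.append hg, fun x => ⟨?_, ?_, ?_⟩⟩
    · intro i hi
      rw [(hg' _).2.2 i (by omega) (by omega), (hf' x).1 i (by omega)]
    · intro i h1 h2
      rcases Nat.lt_or_ge (n - m) i with h3 | h3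
      · rw [(hg' _).2.2 i (by omega) (by omega), (hf' x).2.1 i h3 h2]
      · have h4 : i = n - 1 - m + 1 := by omega
        rw [h4, (hg' _).2.1, (hf' x).1 _ (by omega)]
        rfl
    · rw [e2, (hg' _).1, e1, (hf' x).2.2]

theorem clause_part (h : M_macro) (n : ℕ) (c : List (ℕ × Bool)) (hc : ∀ l ∈ c, l.1 < n) (x : ℕ → Bool) :
    (∀ y, Run (clauseOps n c) x y → (∃ l ∈ c, x (9 * (l.1 + 1)) = l.2) ∧
      ∀ j < n, y (9 * (j + 1)) = x (9 * (j + 1))) ∧
    ((∃ l ∈ c, x (9 * (l.1 + 1)) = l.2) → ∃ y, Run (clauseOps n c) x y) := by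
  have hr := h.1
  obtain ⟨f, hf, hf'⟩ := lits_part h c n
  obtain ⟨g, hg, hg'⟩ := h.2.2.2.2 (9 * n)
  obtain ⟨b, hb, hb'⟩ := back_part h n n le_rfl
  have hx0 : ∀ j, (Function.update x 0 false) (9 * (j + 1)) = x (9 * (j + 1)) := by
    intro j
    rw [Function.update_of_ne (by omega)]
  have hcond : f (Function.update x 0 false) (9 * n) = true ↔ ∃ l ∈ c, x (9 * (l.1 + 1)) = l.2 := by
    rw [(hf' _).2.1]
    simp only [Function.update_self, Bool.false_eq_true, false_or, hx0]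
    constructor
    · rintro ⟨j, hj, (⟨h1, h2⟩ | ⟨h1, h2⟩)⟩
      · exact ⟨_, h1, h2⟩
      · exact ⟨_, h1, h2⟩
    · rintro ⟨⟨j, s⟩, h1, h2⟩
      refine ⟨j, hc _ h1, ?_⟩
      simp only at h2
      cases s with
      | true => exact Or.inl ⟨h1, h2⟩
      | false => exact Or.inr ⟨h1, h2⟩
  have hrun : ∀ y, Run (clauseOps n c) x y ↔ (∃ l ∈ c, x (9 * (l.1 + 1)) = l.2) ∧
      y = b (g (f (Function.update x 0 false))) := by
    intro y
    rw [clauseOps, run_append]
    constructor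
    · rintro ⟨z, hz, hy⟩
      rw [run_append] at hz
      obtain ⟨w, hw, hz⟩ := hz
      rw [run_append] at hw
      obtain ⟨v, hv, hw⟩ := hw
      rw [hr] at hv
      rw [hf] at hw
      rw [hg] at hz
      rw [hb] at hy
      subst hv
      subst hw
      exact ⟨hcond.1 hz.1, by rw [hy, hz.2]⟩
    · rintro ⟨h1, rfl⟩
      refine ⟨_, ?_, (hb _ _).2 rfl⟩
      rw [run_append]
      refine ⟨_, ?_, (hg _ _).2 ⟨hcond.2 h1, rfl⟩⟩
      rw [run_append]
      exact ⟨_, (hr _ _ _).2 rfl, (hf _ _).2 rfl⟩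
  refine ⟨fun y hy => ?_, fun h1 => ⟨_, (hrun _).2 ⟨h1, rfl⟩⟩⟩
  obtain ⟨h1, rfl⟩ := (hrun y).1 hy
  refine ⟨h1, fun j hj => ?_⟩
  rw [(hb' _).2.1 (j + 1) (by omega) (by omega), Nat.add_sub_cancel, hg' _ _ (Or.inl (by omega)),
    (hf' _).1 j hj, hx0]

theorem prog_part (h : M_macro) (n : ℕ) (cls : List (List (ℕ × Bool))) (hc : ∀ c ∈ cls, ∀ l ∈ c, l.1 < n)
    (x : ℕ → Bool) : (∃ y, Run (prog n cls) x y) ↔ ∀ c ∈ cls, ∃ l ∈ c, x (9 * (l.1 + 1)) = l.2 := by
  induction cls generalizing x with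
  | nil =>
    simp [prog, Run]
  | cons c cls ih =>
    have hc' := fun c' hc' => hc c' (List.mem_cons_of_mem _ hc')
    have hc0 := hc c List.mem_cons_self
    have hp := clause_part h n c hc0 x
    have e : prog n (c :: cls) = clauseOps n c ++ prog n cls := rfl
    rw [e]
    have key : ∀ z, Run (clauseOps n c) x z → ((∃ y, Run (prog n cls) z y) ↔
        ∀ c' ∈ cls, ∃ l ∈ c', x (9 * (l.1 + 1)) = l.2) := by
      intro z hz
      rw [ih hc' z]
      have h1 := (hp.1 z hz).2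
      constructor
      · intro h2 c' hcc
        obtain ⟨l, hl, hl'⟩ := h2 c' hcc
        exact ⟨l, hl, by rw [← h1 _ (hc' c' hcc l hl)]; exact hl'⟩
      · intro h2 c' hcc
        obtain ⟨l, hl, hl'⟩ := h2 c' hcc
        exact ⟨l, hl, by rw [h1 _ (hc' c' hcc l hl)]; exact hl'⟩
    constructor
    · rintro ⟨y, hy⟩
      rw [run_append] at hy
      obtain ⟨z, hz, hy⟩ := hy
      intro c' hcc
      rcases List.mem_cons.1 hcc with rfl | hcc
      · exact (hp.1 z hz).1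
      · exact (key z hz).1 ⟨y, hy⟩ c' hcc
    · intro h1
      obtain ⟨z, hz⟩ := hp.2 (h1 c List.mem_cons_self)
      obtain ⟨y, hy⟩ := (key z hz).2 (fun c' hcc => h1 c' (List.mem_cons_of_mem _ hcc))
      exact ⟨y, (run_append _ _ _ _).2 ⟨z, hz, hy⟩⟩

/-- MODULE SL2. -/
theorem sl_prog (h : M_macro) : M_prog := by
  intro n cls hc
  refine ⟨valid_prog n cls, ?_, ?_⟩
  · rintro ⟨x, y, hxy⟩
    exact ⟨fun j => x (9 * (j + 1)), (prog_part h n cls hc x).1 ⟨y, hxy⟩⟩
  · rintro ⟨β, hβ⟩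
    refine ⟨fun i => β (i / 9 - 1), (prog_part h n cls hc _).2 (fun c hcc => ?_)⟩
    obtain ⟨l, hl, hl'⟩ := hβ c hcc
    refine ⟨l, hl, ?_⟩
    show β (9 * (l.1 + 1) / 9 - 1) = l.2
    rw [Nat.mul_div_cancel_left _ (by norm_num), Nat.add_sub_cancel]
    exact hl'

end Pool.Agent.Helper99.SC.Prog
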